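import Pool.Agent.helper49.Y2.Main
import Pool.Agent.helper49.Y2.Neq

/-!
# Additivity and cofinality of the Yorioka ideals

`yoriokaIdeal f` is the Yorioka ideal of `f` on the Cantor space `ℕ → Bool`; `add`, `cov`, `non`, `cof` are the four
cardinal invariants of an ideal. The additivity does not increase and the cofinality does not decrease if `f` increases, and
neither of them changes if `f` is replaced by `2 ^ f`. So both are the same for all increasing functions which are bounded by a
finite tower of exponentials (whose ideals are different: the ideal of a tower is not contained in the ideal of the next one), and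
for these functions together the chain `add < non < cov < cof` becomes a statement about the towers only.

Sketch. A set in `I_f` is given by sets `A_j` of strings of length `f (K_j)`, `K_j = 2 ^ 2 ^ j`, with `K_j ^ o(1)` elements. Suppose
that we know a thin set `T` of strings such that `[T]` contains `[A']` for a set `A'` of strings made from `A` (a free part of
length `2 ^ j` in front, zeros at the end). By a category argument inside the complement of `[T]` the strings of `A_j`, for almost
all `j`, occur in the strings of `T`; this gives `K_(j + u j)` candidates for the elements of `A_j`, where `u` is any function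
tending to infinity. Coding several `A_j` in one string at a lower level the number of candidates becomes `K_j ^ o(1)`. A string
of length `2 ^ f (K_j)` is coded as a string at a higher level, so it has `2 ^ f (K_j)` candidates; its index is a
string of length `f (K_j)`, which has `K_j ^ o(1)` candidates. So every family of fewer than `add I_f` members of `I_(2 ^ f)` is
bounded, by seven successive applications of the additivity of `I_f`; dually for the cofinalities.
-/

namespace Pool.Agent.Results.MP_752b23_lc.OuterNumbers

open H61.Yorioka H61.Y2 Cardinal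

theorem result :
    (∀ f g : ℕ → ℕ, StrictMono f → StrictMono g → (∃ m, ∀ n ≥ m, g n ≤ f n) →
      add (yoriokaIdeal f) ≤ add (yoriokaIdeal g) ∧ cof (yoriokaIdeal g) ≤ cof (yoriokaIdeal f)) ∧
    (∀ f : ℕ → ℕ, StrictMono f →
      add (yoriokaIdeal (fun n => 2 ^ f n)) = add (yoriokaIdeal f) ∧
      cof (yoriokaIdeal (fun n => 2 ^ f n)) = cof (yoriokaIdeal f)) ∧
    (∀ f : ℕ → ℕ, StrictMono f → (∃ h m : ℕ, ∀ n ≥ m, f n ≤ (fun x : ℕ => 2 ^ x)^[h] n) →
      add (yoriokaIdeal f) = add (yoriokaIdeal id) ∧ cof (yoriokaIdeal f) = cof (yoriokaIdeal id)) ∧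
    ((∀ f : ℕ → ℕ, StrictMono f → (∃ h m : ℕ, ∀ n ≥ m, f n ≤ (fun x : ℕ => 2 ^ x)^[h] n) →
      add (yoriokaIdeal f) < non (yoriokaIdeal f) ∧ non (yoriokaIdeal f) < cov (yoriokaIdeal f) ∧
        cov (yoriokaIdeal f) < cof (yoriokaIdeal f)) ↔
      (non (yoriokaIdeal id) < cov (yoriokaIdeal id) ∧
        ∀ h : ℕ, add (yoriokaIdeal id) < non (yoriokaIdeal ((fun x : ℕ => 2 ^ x)^[h])) ∧
          cov (yoriokaIdeal ((fun x : ℕ => 2 ^ x)^[h])) < cof (yoriokaIdeal id))) ∧
    (∀ h : ℕ, ¬ yoriokaIdeal ((fun x : ℕ => 2 ^ x)^[h]) ⊆ yoriokaIdeal ((fun x : ℕ => 2 ^ x)^[h + 1])) :=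
  ⟨main_PA, main_PB, main_TOW, Cor_chain main_TOW, Neq Y0A Y0B Y0C TLS (GD TLS) COR AVO E1⟩

end Pool.Agent.Results.MP_752b23_lc.OuterNumbers
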